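import Pool.Agent.W69.MD.Iter

/-!
# Sign matrices of every order whose determinant is almost extremal

Hadamard's inequality bounds the determinant of an `n × n` matrix with entries `±1` by
`n ^ (n / 2)`, with equality exactly for Hadamard matrices. There is a constant `C` such that in
every order `n` there is such a matrix whose determinant is at least
`n ^ (n / 2) * exp (- 2 ^ (C ^ (1 + log* n)))`. The factor lost is smaller than every fixed iterated
logarithm of `n` (`Pool.Agent.W69.MD.iter_log`).

It rests on the theorem of helper851 (`MP_d8b1b3_co/LogStarExistence`) and on a bordering which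
multiplies the determinant of an arbitrary nonsingular sign matrix of order `m` by at least
`(5 / 9) * √m` (`Pool.Agent.W69.MD.step`).
-/

namespace Pool.Agent.Results.MP_d8b1b3_co.DeterminantLogStar

theorem result : ∃ C : ℕ, ∀ k n : ℕ, 0 < n → n ≤ (fun x : ℕ => 2 ^ x)^[k] 1 →
    ∃ B : Matrix (Fin n) (Fin n) ℤ, (∀ i j, B i j = 1 ∨ B i j = -1) ∧
      (n : ℝ) ^ ((n : ℝ) / 2) * Real.exp (-2 ^ (C ^ (k + 1))) ≤ (B.det : ℝ) :=
  Pool.Agent.W69.MD.log_star

end Pool.Agent.Results.MP_d8b1b3_co.DeterminantLogStar
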