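import Pool.Agent.W851.Had.Tower

/-!
# Hadamard matrices of order `2 ^ t * q` for all `t ≥ C ^ (1 + log* q)`

There is a constant `C` such that for all natural numbers `n`, `q > 0` and `t` with
`q ≤ 2 ↑↑ n` (the power tower `2 ^ 2 ^ ⋯ ^ 2` of `n` twos, equal to `1` for `n = 0`) and
`C ^ (n + 1) ≤ t` there is a Hadamard matrix of order `2 ^ t * q`.

Equivalently: `t ≥ C ^ (1 + log* q)` suffices, where `log*` is the iterated logarithm to base two.
-/

namespace Pool.Agent.Results.MP_d8b1b3_co.LogStarExistence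

theorem result : ∃ C : ℕ, ∀ n q t : ℕ, 0 < q → q ≤ (fun x : ℕ => 2 ^ x)^[n] 1 →
    C ^ (n + 1) ≤ t →
    ∃ H : Matrix (Fin (2 ^ t * q)) (Fin (2 ^ t * q)) ℤ,
      (∀ i j, H i j = 1 ∨ H i j = -1) ∧
      H * H.transpose = ((2 ^ t * q : ℕ) : ℤ) •
        (1 : Matrix (Fin (2 ^ t * q)) (Fin (2 ^ t * q)) ℤ) := by
  obtain ⟨C, _, h⟩ := Pool.Agent.W851.Had.main_had
  exact ⟨C, fun n q t _ hq ht => h n q t hq ht⟩

end Pool.Agent.Results.MP_d8b1b3_co.LogStarExistence
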