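import Mathlib
import Pool.Agent.W69.MH.Top

/-!
# Hadamard matrices modulo powers of two that grow like a power of the order

There is `c > 0` such that for every large `n` divisible by four there is an `n × n` matrix with entries
`1` and `-1` all of whose pairs of distinct rows have inner products divisible by `2 ^ k`, for every
`2 ^ k ≤ n ^ c`; and modulo `2 ^ k * d ≤ n ^ c` with `d` odd, `d ≤ (log n) ^ B`, if `d` is coprime to
`n - 1` or to `n / 2 - 1`, which is automatic if `d` is a power of a prime.

Proof.  If `E` is a conference matrix of order `r` modulo `m` and `Q_1, ..., Q_r` are cores modulo `m`, all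
of orders `u` modulo `m`, where `(r - 1) u = 1` modulo `m`, then the matrix with diagonal blocks `Q_i` and
constant off-diagonal blocks `E_ij` is a conference matrix modulo `m`; without its first row and column it
is again a core.  So the orders of cores (which contain the primes `u` modulo `m`) contain all large
integers `u` modulo `m`, and the bound for large is a power of `m` by Linnik's theorem for the moduli
`2 ^ k * d`, for which an elementary proof is given (no real character is exceptional, by
Siegel-Walfisz).
-/

namespace Pool.Agent.Results.MP_d8b1b3_co.ModularPowerModuli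

/-- There is a real `c > 0` such that for every `B` there is `n₀` such that for all `n ≥ n₀` divisible by
four, all `k` and all odd `d ≤ (log n) ^ B` with `2 ^ k * d ≤ n ^ c` and `d` coprime to `n - 1` or to
`n / 2 - 1` there is an `n × n` matrix with entries `1` and `-1` whose distinct rows have inner products
divisible by `2 ^ k * d`. -/
theorem result : ∃ c : ℝ, 0 < c ∧ ∀ B : ℕ, ∃ n₀ : ℕ, ∀ n : ℕ, n₀ ≤ n → 4 ∣ n → ∀ k d : ℕ, Odd d →
    (d : ℝ) ≤ (Real.log n) ^ B → (2 : ℝ) ^ k * d ≤ (n : ℝ) ^ c →
    Nat.Coprime (n - 1) d ∨ Nat.Coprime (n / 2 - 1) d →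
    ∃ H : Matrix (Fin n) (Fin n) ℤ, (∀ i j, H i j = 1 ∨ H i j = -1) ∧
      ∀ i j, i ≠ j → ((2 ^ k * d : ℕ) : ℤ) ∣ (H * H.transpose) i j := by
  obtain ⟨c, hc, h⟩ := Pool.Agent.W69.MH.main
  refine ⟨c, hc, fun B => ?_⟩
  obtain ⟨n₀, hn₀⟩ := h B
  refine ⟨n₀, fun n hn h4 k d hd hdB hkd hcop => ?_⟩
  obtain ⟨H, h1, h2⟩ := hn₀ n hn h4 k d hd hdB hkd hcop
  refine ⟨H, h1, fun i j hij => ?_⟩
  have h3 := h2 i j hij
  rw [Matrix.mul_apply]
  push_cast
  exact h3

end Pool.Agent.Results.MP_d8b1b3_co.ModularPowerModuli
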