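import Pool.Agent.W69.NI.Main

/-!
In every large order `n` there is a sign matrix which is an isometry up to scaling by `sqrt n` and
up to a relative error `n ^ (-1/4 + o(1))`.
-/

set_option autoImplicit false

namespace Pool.Agent.Results.MP_d8b1b3_co.NearlyIsometric

theorem result : ∃ n₀ : ℕ, ∀ n : ℕ, n₀ ≤ n →
    ∃ A : Fin n → Fin n → ℝ, (∀ i j, A i j = 1 ∨ A i j = -1) ∧
      ∀ x : Fin n → ℝ, |∑ i, (∑ j, A i j * x j) ^ 2 - n * ∑ j, x j ^ 2| ≤
        (n : ℝ) ^ (3 / 4 : ℝ) * Real.sqrt (Real.log n) * Real.log (Real.log n) *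
          ∑ j, x j ^ 2 :=
  Pool.Agent.W69.NI.main

end Pool.Agent.Results.MP_d8b1b3_co.NearlyIsometric
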